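import Pool.Agent.H938.CU.Albanese

/-!
# The noncommutative Künneth conjecture and the Albanese torsor, in positive characteristic

Let `X` be a smooth projective geometrically integral variety over a field `k` of characteristic
`p > 0`, which need not be perfect. We prove that `C_NC` for the dg category of perfect complexes on
`X`, with coefficients in any field `F`, implies that `p` does not divide the period of the
Albanese torsor of `X`, the order of the class of `Alb^1_X` in `H^1(k, Alb_X)`. If `X` is a torsor
under an abelian variety `A`, then `C_NC` for `X` is equivalent to `C_NC` for `A` together with this
condition; and `C_NC` holds for all abelian varieties if `p` is odd.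

By the criterion `Saturated.main` over the algebraic closure, `C_NC` for `X` yields a class `z` in
`K_0(X × X)` which acts as some `n` prime to `p` on the even part of the topological periodic cyclic
homology, and as `0` on the odd part. The determinant of the cohomology of the sheaves `z_x ⊗ M`,
for `M` in the dual of the Albanese variety, defines a morphism from `Alb^1_X` to `Alb^n_X` over the
zero endomorphism, so `Alb^n_X` has a rational point. There is no factor `(dim X - 1)!` as there
would be with Chern classes.
-/

set_option autoImplicit false

/-- **`C_NC` for a variety `X` over a field of characteristic `p` implies that `p` does not divide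
the period of the Albanese torsor; for a torsor `X` under an abelian variety `A`, it is equivalent
to this condition together with `C_NC` for `A`; and it holds for abelian varieties if `p ≠ 2`.** -/
theorem Pool.Agent.Results.MP_eadf0f_ag.AlbanesePeriod.result
    {p : ℕ} [Fact p.Prime] {k κ : Type} [Field k] [Field κ] [CharP κ p] [Algebra k κ]
    [IsAlgClosure k κ] {K : Type} [Field K] [Algebra (WittVector p κ) K]
    [IsFractionRing (WittVector p κ) K] (X A : Pool.Agent.H938.CU.Variety p k κ K)
    (F L : Type) [Field F] [Field L] [Algebra F L] [Algebra k L] :
    (X.HPk.Kunneth F L → ¬ p ∣ X.period) ∧
    (X.IsTorsor A → (X.HPk.Kunneth F L ↔ ¬ p ∣ X.period ∧ A.HPk.Kunneth F L)) ∧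
    (A.IsAbelian → p ≠ 2 → A.HPk.Kunneth F L) :=
  ⟨X.not_dvd_period F L, fun h => X.kunneth_torsor_iff A h F L,
    fun hA hp => A.kunneth_abelian hA hp F L⟩
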