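import Pool.Agent.H938.BK.Main

/-!
# The noncommutative Künneth conjecture over perfect fields of positive characteristic

Let `k` be a perfect field of characteristic `p > 0` and `𝒜` a saturated dg category over `k`. The
topological periodic cyclic homology `TP(𝒜)` is a finitely generated module over the ring `W(k)` of
Witt vectors, and `HP(𝒜)` is its derived reduction modulo `p`, see `Data.IsSaturated`.

We prove that `C_NC(𝒜)`, with coefficients in any field `F`, holds if and only if `TP(𝒜)` is
torsion-free AND the conjecture `C^+_nc(𝒜)` on the even projector of `TP(𝒜)[1/p]` holds with
`p`-integral coefficients. So `C_NC(𝒜)` does not depend on `F`, and it fails for every `𝒜` with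
torsion in `TP(𝒜)`, also over finite and over algebraically closed fields. It is also equivalent to
the existence of one correspondence, with coefficients in any extension `L` of `k`, without common
eigenvalues on the even and on the odd part of `HP(𝒜)`.

The idea: all correspondences commute with the Bockstein map from `HP_i(𝒜)` to `HP_(i-1)(𝒜)`, and
the projector does not, unless there is no torsion. Then the coefficients are lifted to `W(k)`,
made rational by the trace formula, and `p`-integral by a flatness argument for numerical
equivalence.
-/

set_option autoImplicit false

/-- **`C_NC(𝒜)` over a perfect field of characteristic `p` is equivalent to: `TP(𝒜)` is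
torsion-free and `C^+_nc(𝒜)` holds with `p`-integral coefficients.** -/
theorem Pool.Agent.Results.MP_eadf0f_ag.PerfectFieldsCriterion.result
    {p : ℕ} [Fact p.Prime] {k : Type} [Field k] [CharP k p] [PerfectRing k p]
    {K : Type} [Field K] [Algebra (WittVector p k) K] [IsFractionRing (WittVector p k) K]
    (𝒜 : Pool.Agent.H938.BK.Saturated p k K)
    (F L : Type) [Field F] [Field L] [Algebra F L] [Algebra k L] :
    [𝒜.HP.Kunneth F L,
      𝒜.HP.KunnethPrimeField,
      𝒜.HP.Separated L,
      𝒜.TP.TorsionFree p ∧ 𝒜.TP.ProjInSpan,
      𝒜.TP.TorsionFree p ∧ 𝒜.TP.ProjIntegral p K].TFAE :=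
  𝒜.main F L
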