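import Pool.Agent.H938.CU.Curve

/-!
# The noncommutative Künneth conjecture for curves in positive characteristic

Let `C` be a smooth projective geometrically integral curve over a field `k` of characteristic
`p > 0`, which need not be perfect, and `J` its Jacobian. We prove that the conjecture `C_NC` for
the dg category of perfect complexes on `C`, with coefficients in any field `F`, holds if and only
if `p` does not divide the period of `C`, the order of the class of `Pic^1_C` in `H^1(k, J)`.

If `n` is prime to `p` and `Pic^n_C` has a rational point `c`, then the line bundle `c ⊠ c⁻¹` exists
over `k`, since its obstruction in the Brauer group vanishes, and the square of its class minus the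
class of `O` acts as `n²` on the even part and as zero on the odd part. In the other direction,
`C_NC` for `C` implies, by the criterion `Saturated.main` over the algebraic closure, that a class
in `K_0(C × C)` acts as some `n` prime to `p` on the even part of the topological periodic cyclic
homology, and as `0` on the odd part. Its determinant induces a morphism from `Pic^1_C` to `Pic^n_C`
over the zero endomorphism of `J`, and the image is a rational point of `Pic^n_C`.
-/

set_option autoImplicit false

/-- **`C_NC` for a curve over a field of characteristic `p` holds if and only if `p` does not divide
the period of the curve.** -/
theorem Pool.Agent.Results.MP_eadf0f_ag.PeriodOfCurves.result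
    {p : ℕ} [Fact p.Prime] {k κ : Type} [Field k] [Field κ] [CharP κ p] [Algebra k κ]
    [IsAlgClosure k κ] {K : Type} [Field K] [Algebra (WittVector p κ) K]
    [IsFractionRing (WittVector p κ) K] (C : Pool.Agent.H938.CU.Curve p k κ K)
    (F L : Type) [Field F] [Field L] [Algebra F L] [Algebra k L] :
    C.HPk.Kunneth F L ↔ ¬ p ∣ C.period :=
  C.main F L
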