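import Pool.Agent.H938.CN.Cat
import Pool.Agent.H938.CN.Insep

/-!
# The noncommutative Künneth conjecture fails for curves in every positive characteristic

Let `p` be a prime number and `k` a field of characteristic `p` which is the fraction field of a
discrete valuation ring, or a purely inseparable extension of such a field. (So `k` can be any
infinite finitely generated field of characteristic `p`, its perfect closure, or a field of
Laurent series.) Let `t` be the inverse of a prime element. The curve
`C : (x ^ p - x + t) (y ^ p - y + t) = 1` in the product of two projective lines is smooth, of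
genus `(p - 1) ^ 2`, and the degrees of its closed points are divisible by `p`: if `v` is a discrete
valuation with `v(t) < 0` prime to `p`, then `v(x ^ p - x + t) < 0` for all `x`. We prove that the
Euler characteristics of all coherent sheaves on `C` are divisible by `p`. So all noncommutative
correspondences from `perf_dg(C)` to itself have supertrace zero on `HP^±`. But `C` has the
endomorphism `(x, y) ↦ (x ^ p + t, y ^ p + t)` of degree `p`, whose trace on
`HP⁺ = H⁰ ⊕ H²` is `1 + p`. This number is not zero in `k`, also not for `p = 2`. Hence the Künneth
projectors are not algebraic, for every field of coefficients.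
-/

set_option autoImplicit false

namespace Pool.Agent.Results.MP_eadf0f_ag.PositiveCharacteristicCurves

open Pool.Agent.H938.CN CategoryTheory MonoidalCategory W875.NK.St

universe v u

/-- The curve `C` is smooth, its closed points have degree divisible by `p`, it has the
endomorphism `(x, y) ↦ (x ^ p + t, y ^ p + t)`, the Euler characteristics of its coherent sheaves
are divisible by `p`, and the Künneth projectors of the super realisations of its noncommutative
motive are not algebraic. -/
theorem result (p : ℕ) [Fact p.Prime]
    (R : Type) [CommRing R] [IsDomain R] [IsDiscreteValuationRing R]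
    (k₀ : Type) [Field k₀] [Algebra R k₀] [IsFractionRing R k₀] [CharP k₀ p]
    (k : Type) [Field k] [Algebra k₀ k] [IsPurelyInseparable k₀ k]
    (π : R) (hπ : Irreducible π) (t : k) (ht : t = algebraMap k₀ k (algebraMap R k₀ π)⁻¹) :
    Smooth p t ∧ Points p t ∧ Endo p t ∧ Euler p t ∧
    ∀ (𝒩 : Type u) [Category.{v} 𝒩] [MonoidalCategory 𝒩] [SymmetricCategory 𝒩]
      [Preadditive 𝒩] (A B : 𝒩) [ExactPairing A B] (S : Set (A ⟶ A)), IsMotive p t A B S →
      ∀ (K : Type) [Field K] [Algebra k K] (ω : SuperFunctor 𝒩 K) (φ : A ⟶ A),
        evenTrace ω φ ≠ 0 →
          ¬ ω.Algebraic A (ω.even A) ∧ ¬ ω.Algebraic A (ω.odd A) := by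
  subst ht
  have hchar : CharP k p := charP_of_injective_algebraMap (algebraMap k₀ k).injective p
  have hp2 : 2 ≤ p := (Fact.out : p.Prime).two_le
  have H := aniso_insep p k₀ k (aniso p R k₀ π hπ)
  refine ⟨smooth, points_of_aniso hp2 H, endo, euler_of_aniso H hp2, ?_⟩
  intro 𝒩 _ _ _ _ A B _ S hS K _ _ ω φ hφ
  exact not_algebraic (euler_of_aniso H hp2) A B S hS K ω φ hφ

end Pool.Agent.Results.MP_eadf0f_ag.PositiveCharacteristicCurves
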